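import Mathlib
import Pool.Agent.V11294.Leg.Main

/-!
# The Legendre symbol determinant for nonresidues modulo `p ≡ 1 (mod 4)`
-/

namespace Pool.Agent.Results.MP_b23923_nt.LegendreDet

open Finset

/-- `D(d, p) = det [((j² + d k²) / p)]` with `2 ≤ j, k ≤ (p - 1) / 2`; the index `j : Fin ((p - 3) / 2)`
stands for the row `j + 2`. -/
def D (d : ℤ) (p : ℕ) [Fact p.Prime] : ℤ :=
  (Matrix.of fun j k : Fin ((p - 3) / 2) => legendreSym p (((j : ℤ) + 2) ^ 2 + d * ((k : ℤ) + 2) ^ 2)).det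

/-- `B(d, p) = ∑_{x = 1}^{(p - 1) / 2} ((x (x² + d)) / p)`. -/
def B (d : ℤ) (p : ℕ) [Fact p.Prime] : ℤ :=
  ∑ x ∈ Icc 1 ((p - 1) / 2), legendreSym p ((x : ℤ) * ((x : ℤ) ^ 2 + d))

/-- **Theorem.** For every prime `p ≡ 1 (mod 4)` there is a positive integer `t` with `(t / p) = 1` such
that `D(d, p) = 2 ^ ((p - 7) / 2) t ^ 2 B(d, p)` for all `d` with `(d / p) = -1`. -/
theorem result (p : ℕ) [Fact p.Prime] (hp : p % 4 = 1) :
    ∃ t : ℕ, 0 < t ∧ legendreSym p (t : ℤ) = 1 ∧ ∀ d : ℤ, legendreSym p d = -1 →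
      (D d p : ℚ) = (2 : ℚ) ^ (((p : ℤ) - 7) / 2) * (t : ℚ) ^ 2 * (B d p : ℚ) := by
  have hp1 : 1 < p := (Fact.out : p.Prime).one_lt
  obtain ⟨m, hm⟩ : ∃ m, p = 4 * m + 5 := ⟨(p - 5) / 4, by omega⟩
  obtain ⟨t, ht0, ht1, ht2⟩ := Pool.Agent.V11294.Leg.main hm
  refine ⟨t, ht0, ?_, fun d hd => ?_⟩
  · rw [legendreSym]; push_cast; exact ht1
  · have h := ht2 (d : ZMod p) hd
    have hD : D d p = (Matrix.of fun j k : Fin (2 * m + 1) =>
        Pool.Agent.V11294.Leg.chi p (((j : ℕ) + 2 : ZMod p) ^ 2 + (d : ZMod p) * ((k : ℕ) + 2 : ZMod p) ^ 2)).det := by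
      have e : (p - 3) / 2 = 2 * m + 1 := by omega
      rw [D, e]
      congr 1
      ext j k
      simp only [Matrix.of_apply, legendreSym]
      push_cast
      rfl
    have hB : B d p = ∑ x ∈ Icc 1 (2 * (m + 1)),
        Pool.Agent.V11294.Leg.chi p ((x : ZMod p) * ((x : ZMod p) ^ 2 + (d : ZMod p))) := by
      have e : (p - 1) / 2 = 2 * (m + 1) := by omega
      rw [B, e]
      refine sum_congr rfl fun x _ => ?_
      rw [legendreSym]
      push_cast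
      rfl
    rw [← hD, ← hB] at h
    have h2 : (2 : ℚ) * (D d p : ℚ) = 4 ^ m * (t : ℚ) ^ 2 * (B d p : ℚ) := by exact_mod_cast h
    have e : ((p : ℤ) - 7) / 2 = 2 * (m : ℤ) - 1 := by omega
    have e2 : (2 : ℚ) * (2 : ℚ) ^ (2 * (m : ℤ) - 1) = 4 ^ m := by
      rw [zpow_sub₀ (by norm_num), zpow_one, mul_div_cancel₀ _ (by norm_num : (2 : ℚ) ≠ 0), zpow_mul]
      norm_num
    rw [e]
    have h3 : (2 : ℚ) * (D d p : ℚ) = 2 * ((2 : ℚ) ^ (2 * (m : ℤ) - 1) * (t : ℚ) ^ 2 * (B d p : ℚ)) := by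
      rw [h2, ← e2]; ring
    exact mul_left_cancel₀ (by norm_num) h3

end Pool.Agent.Results.MP_b23923_nt.LegendreDet
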